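import Mathlib
import Pool.Agent.H6.LE.Main

/-!
# Bounded-energy solutions whose final value leads to instantaneous complete blow-up

The Lane-Emden heat flow `u_t - Δ u = |u|^(p-2) u` in the unit ball of `ℝ³` with `p = 10 > 6 = 2*`
has a nonnegative smooth solution on `]0, T[` with bounded energy whose final value `u(T)` leads
to instantaneous complete blow-up.  The definitions are in `Pool/Agent/H6/LE/Statement.lean`.
-/

namespace Pool.Agent.Results.MP_3103cf_an.CompleteBlowup

open Set Metric LE.St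
open scoped ENNReal

theorem result : ∃ (T : ℝ) (u : ℝ → EuclideanSpace ℝ (Fin 3) → ℝ)
    (v : EuclideanSpace ℝ (Fin 3) → ℝ≥0∞), 0 < T ∧
    SmoothSolution (ball 0 1) 10 T u ∧
    (∀ t ∈ Ico 0 T, ∀ x ∈ closure (ball (0 : EuclideanSpace ℝ (Fin 3)) 1), 0 ≤ u t x) ∧
    BoundedEnergy (ball 0 1) 10 T u ∧
    IsFinalValue (ball 0 1) T u v ∧
    InstantaneousCompleteBlowup (ball 0 1) 10 v :=
  LE.main

end Pool.Agent.Results.MP_3103cf_an.CompleteBlowup
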